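import Pool.Agent.H15.G.R_seed8.TH641.NW.Cnt

/-! The number of integers of the intervals, when the slope is close to `9 P - 1 + 1 / P`. -/

namespace Pool.Agent.TH79.NW

open Finset

/-- the sum of the integer quotients over a full period -/
theorem sum_ediv {P : ℕ} (hP : 1 ≤ P) (N : ℤ) : ∑ s ∈ range P, (N + s) / (P : ℤ) = N := by
  have hstep : ∀ M : ℤ, ∑ s ∈ range P, (M + 1 + s) / (P : ℤ) = ∑ s ∈ range P, (M + s) / (P : ℤ) + 1 := by
    intro M
    have h1 : ∑ s ∈ range (P + 1), (M + s) / (P : ℤ) = ∑ s ∈ range P, (M + 1 + s) / (P : ℤ) + M / P := by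
      rw [sum_range_succ']
      congr 1
      · refine sum_congr rfl fun s _ => ?_
        congr 1
        push_cast
        ring
      · simp
    rw [sum_range_succ] at h1
    have h2 : (M + P) / (P : ℤ) = M / P + 1 := by
      rw [Int.add_ediv_of_dvd_right (dvd_refl _), Int.ediv_self (by exact_mod_cast (by omega : P ≠ 0))]
    linarith
  induction N using Int.induction_on with
  | zero =>
    apply sum_eq_zero
    intro s hs
    rw [mem_range] at hs
    rw [zero_add]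
    exact Int.ediv_eq_zero_of_lt (by positivity) (by exact_mod_cast hs)
  | succ N ih => rw [hstep, ih]
  | pred N ih =>
    have := hstep (-(N : ℤ) - 1)
    rw [show -(N : ℤ) - 1 + 1 = -N by ring, ih] at this
    linarith

/-- Hermite's identity -/
theorem hermite {P : ℕ} (hP : 1 ≤ P) (x : ℝ) : ∑ s ∈ range P, ⌊x + s / P⌋ = ⌊P * x⌋ := by
  have hP0 : (P : ℝ) ≠ 0 := by exact_mod_cast (by omega : P ≠ 0)
  rw [← sum_ediv hP ⌊P * x⌋]
  refine sum_congr rfl fun s _ => ?_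
  have h1 : x + s / P = (P * x + (s : ℤ)) / P := by
    field_simp
    push_cast
    ring
  rw [h1, Int.floor_div_natCast, Int.floor_add_intCast]

/-- rounding sum over a full period -/
theorem sum_floor_rot {P A0 : ℕ} (hP : 1 ≤ P) {δ : ℝ} (hδ0 : 0 ≤ δ) (hδ : δ * P ^ 2 ≤ 1) (x : ℝ) :
    |∑ s ∈ range P, ((⌊x + ((A0 : ℝ) + 1 / P + δ) * s⌋ : ℝ) - (x + ((A0 : ℝ) + 1 / P + δ) * s) + 1 / 2)| ≤ 2 := by
  have hPp : (0 : ℝ) < P := by exact_mod_cast (by omega : 0 < P)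
  have hP1 : (1 : ℝ) ≤ P := by exact_mod_cast hP
  have hδP : δ * P ≤ 1 / P := by
    rw [le_div_iff₀ hPp]
    nlinarith
  have hfl : ∀ s : ℕ, ⌊x + ((A0 : ℝ) + 1 / P + δ) * s⌋ = ⌊x + s / P + δ * s⌋ + (A0 * s : ℕ) := by
    intro s
    rw [← Int.floor_add_natCast]
    congr 1
    push_cast
    ring
  have hlow : ⌊(P : ℝ) * x⌋ ≤ ∑ s ∈ range P, ⌊x + s / P + δ * s⌋ := by
    rw [← hermite hP x]
    refine sum_le_sum fun s _ => Int.floor_le_floor ?_
    have : 0 ≤ δ * s := by positivity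
    linarith
  have hup : ∑ s ∈ range P, ⌊x + s / P + δ * s⌋ ≤ ⌊(P : ℝ) * x⌋ + 1 := by
    have h1 : ⌊(P : ℝ) * x⌋ + 1 = ⌊(P : ℝ) * (x + 1 / P)⌋ := by
      rw [mul_add, mul_one_div_cancel hPp.ne', Int.floor_add_one]
    rw [h1, ← hermite hP (x + 1 / P)]
    refine sum_le_sum fun s hs => Int.floor_le_floor ?_
    rw [mem_range] at hs
    have h2 : (s : ℝ) ≤ P := by exact_mod_cast hs.le
    have h3 : δ * s ≤ δ * P := mul_le_mul_of_nonneg_left h2 hδ0
    linarith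
  have hlow' : ((⌊(P : ℝ) * x⌋ : ℤ) : ℝ) ≤ ∑ s ∈ range P, (⌊x + s / P + δ * s⌋ : ℝ) := by exact_mod_cast hlow
  have hup' : ∑ s ∈ range P, (⌊x + s / P + δ * s⌋ : ℝ) ≤ (⌊(P : ℝ) * x⌋ : ℤ) + 1 := by exact_mod_cast hup
  have hs : ∑ s ∈ range P, (s : ℝ) = P * (P - 1) / 2 := by
    have := Finset.sum_range_id_mul_two P
    have h2 : ((∑ s ∈ range P, s : ℕ) : ℝ) * 2 = P * (P - 1) := by
      have h3 : (((∑ s ∈ range P, s) * 2 : ℕ) : ℝ) = ((P * (P - 1) : ℕ) : ℝ) := by exact_mod_cast this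
      push_cast [Nat.cast_sub hP] at h3
      push_cast
      linarith
    push_cast at h2
    linarith
  have hsum : ∑ s ∈ range P, ((⌊x + ((A0 : ℝ) + 1 / P + δ) * s⌋ : ℝ) - (x + ((A0 : ℝ) + 1 / P + δ) * s) + 1 / 2) =
      ∑ s ∈ range P, (⌊x + s / P + δ * s⌋ : ℝ) - P * x - (1 / P + δ) * (P * (P - 1) / 2) + P / 2 := by
    have h1 : ∀ s ∈ range P, ((⌊x + ((A0 : ℝ) + 1 / P + δ) * s⌋ : ℝ) - (x + ((A0 : ℝ) + 1 / P + δ) * s) + 1 / 2) =
        (⌊x + s / P + δ * s⌋ : ℝ) - x - (1 / P + δ) * s + 1 / 2 := by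
      intro s _
      rw [hfl s]
      push_cast
      ring
    rw [sum_congr rfl h1, sum_add_distrib, sum_sub_distrib, sum_sub_distrib, ← mul_sum, hs]
    simp only [sum_const, card_range, nsmul_eq_mul]
    ring
  rw [hsum]
  have h4 : (1 / (P : ℝ) + δ) * (P * (P - 1) / 2) = (P - 1) / 2 + δ * (P * (P - 1)) / 2 := by
    field_simp
  have h5 : 0 ≤ δ * (P * (P - 1)) := by
    have : 0 ≤ (P : ℝ) - 1 := by linarith
    positivity
  have h6 : δ * (P * (P - 1)) ≤ 1 := by nlinarith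
  have h7 := Int.floor_le ((P : ℝ) * x)
  have h8 := Int.lt_floor_add_one ((P : ℝ) * x)
  rw [h4, abs_le]
  constructor <;> linarith

/-- rounding error of one number -/
noncomputable def phi (z : ℝ) : ℝ := (⌊z⌋ : ℝ) - z + 1 / 2

theorem abs_phi (z : ℝ) : |phi z| ≤ 1 / 2 := by
  unfold phi
  have h7 := Int.floor_le z
  have h8 := Int.lt_floor_add_one z
  rw [abs_le]
  constructor <;> linarith

theorem sum_phi {P A0 : ℕ} (hP : 1 ≤ P) {δ : ℝ} (hδ0 : 0 ≤ δ) (hδ : δ * P ^ 2 ≤ 1) (x : ℝ) :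
    |∑ s ∈ range P, phi (x + ((A0 : ℝ) + 1 / P + δ) * s)| ≤ 2 := sum_floor_rot hP hδ0 hδ x

theorem ceil_phi (b : ℝ) : (⌈b⌉ : ℝ) = b + 1 / 2 - phi (-b) := by
  unfold phi
  rw [Int.floor_neg]
  push_cast
  ring

theorem Ico_succ (h Q : ℕ) : Ico (h + 1) (Q + 1) = Ioc h Q := by
  ext s
  rw [mem_Ico, mem_Ioc]
  omega

open Pool.Agent.TH641.NW in
theorem NN_sub_Lam {x Y K : ℝ} {h Q : ℕ} (hhQ : h ≤ Q) :
    (NN x Y K h Q : ℝ) - Lam Y K h Q = ∑ t ∈ range (Q + 1 - h), phi (x + Y + (K - 9) * h + (K - 9) * t) +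
      ∑ s ∈ Ioc h Q, phi (-(x + K * s)) + phi (-x) := by
  have h1 : ∑ t ∈ range (Q + 1 - h), phi (x + Y + (K - 9) * h + (K - 9) * t) =
      ∑ s ∈ Ico h (Q + 1), phi (x + Y + (K - 9) * s) := by
    rw [sum_Ico_eq_sum_range]
    refine sum_congr rfl fun t _ => ?_
    congr 1
    push_cast
    ring
  have h2 : ∑ s ∈ Ico h (Q + 1), phi (x + Y + (K - 9) * s) =
      phi (x + Y + (K - 9) * h) + ∑ s ∈ Ioc h Q, phi (x + Y + (K - 9) * s) := by
    rw [sum_eq_sum_Ico_succ_bot (by omega), Ico_succ]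
  rw [h1, h2]
  unfold NN Lam
  push_cast
  have h3 : ∀ s ∈ Ioc h Q, ((⌊x + Y + (K - 9) * (s : ℝ)⌋ : ℝ) + 1 - ⌈x + K * (s : ℝ)⌉) =
      phi (x + Y + (K - 9) * s) + phi (-(x + K * s)) + (Y - 9 * s) := by
    intro s _
    rw [ceil_phi]
    unfold phi
    ring
  rw [sum_congr rfl h3, sum_add_distrib, sum_add_distrib, ceil_phi x]
  have h4 : (⌊x + Y + (K - 9) * (h : ℝ)⌋ : ℝ) = phi (x + Y + (K - 9) * h) + (x + Y + (K - 9) * h) - 1 / 2 := by
    unfold phi
    ring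
  rw [h4]
  ring

/-- dropping at most `k` terms of a sum of rounding errors -/
theorem sum_phi_drop (f : ℕ → ℝ) (N k : ℕ) : |∑ s ∈ range N, phi (f s)| ≤
    |∑ s ∈ range (N + k), phi (f s)| + k / 2 := by
  induction k with
  | zero => simp
  | succ k ih =>
    rw [← add_assoc, sum_range_succ]
    have h1 := abs_phi (f (N + k))
    have h2 : |∑ s ∈ range (N + k), phi (f s)| ≤
        |∑ s ∈ range (N + k), phi (f s) + phi (f (N + k))| + |phi (f (N + k))| := by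
      have h3 := abs_sub (∑ s ∈ range (N + k), phi (f s) + phi (f (N + k))) (phi (f (N + k)))
      rw [add_sub_cancel_right] at h3
      exact h3
    push_cast
    linarith

open Pool.Agent.TH641.NW in
/-- the number of integers of the intervals differs from the total length by a bounded amount -/
theorem NN_rot {P : ℕ} (hP : 2 ≤ P) {K δ : ℝ} (hK : K = 9 * P - 1 + 1 / P + δ) (hδ0 : 0 ≤ δ)
    (hδ : δ * P ^ 2 ≤ 1) {x Y : ℝ} {h Q : ℕ} (hhQ : h ≤ Q) (hp : Q + 1 = h + P ∨ Q + 2 = h + P) :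
    |(NN x Y K h Q : ℝ) - Lam Y K h Q| ≤ 7 := by
  rw [NN_sub_Lam hhQ]
  have hP2 : (2 : ℝ) ≤ P := by exact_mod_cast hP
  -- the first sum
  have hA : |∑ t ∈ range (Q + 1 - h), phi (x + Y + (K - 9) * h + (K - 9) * t)| ≤ 5 / 2 := by
    have h1 := sum_phi (P := P) (A0 := 9 * P - 10) (by omega) hδ0 hδ (x + Y + (K - 9) * h)
    have hc : ((9 * P - 10 : ℕ) : ℝ) + 1 / P + δ = K - 9 := by
      rw [Nat.cast_sub (by omega), hK]
      push_cast
      ring
    rw [hc] at h1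
    have h2 := sum_phi_drop (fun t => x + Y + (K - 9) * h + (K - 9) * t) (Q + 1 - h) (P - (Q + 1 - h))
    rw [show Q + 1 - h + (P - (Q + 1 - h)) = P by omega] at h2
    have h3 : ((P - (Q + 1 - h) : ℕ) : ℝ) ≤ 1 := by exact_mod_cast (by omega : P - (Q + 1 - h) ≤ 1)
    linarith
  -- the second sum
  have hB : |∑ s ∈ Ioc h Q, phi (-(x + K * s))| ≤ 3 := by
    have h1 := sum_phi (P := P) (A0 := 9 * P - 1) (by omega) hδ0 hδ (-(x + K * (h + P - 1)))
    have hc : ((9 * P - 1 : ℕ) : ℝ) + 1 / P + δ = K := by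
      rw [Nat.cast_sub (by omega), hK]
      push_cast
      ring
    rw [hc, ← sum_range_reflect] at h1
    have h2 : ∑ j ∈ range P, phi (-(x + K * (h + P - 1)) + K * ((P - 1 - j : ℕ) : ℝ)) =
        ∑ j ∈ range P, phi (-(x + K * (h + j : ℕ))) := by
      refine sum_congr rfl fun j hj => ?_
      rw [mem_range] at hj
      congr 1
      rw [Nat.cast_sub (by omega), Nat.cast_sub (by omega)]
      push_cast
      ring
    rw [h2] at h1
    have h3 := sum_phi_drop (fun j => -(x + K * (h + j : ℕ))) (Q + 1 - h) (P - (Q + 1 - h))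
    rw [show Q + 1 - h + (P - (Q + 1 - h)) = P by omega] at h3
    have h4 : ((P - (Q + 1 - h) : ℕ) : ℝ) ≤ 1 := by exact_mod_cast (by omega : P - (Q + 1 - h) ≤ 1)
    have h5 : ∑ s ∈ range (Q + 1 - h), phi (-(x + K * (h + s : ℕ))) =
        phi (-(x + K * h)) + ∑ s ∈ Ioc h Q, phi (-(x + K * s)) := by
      have h6 := sum_Ico_eq_sum_range (fun s : ℕ => phi (-(x + K * (s : ℝ)))) h (Q + 1)
      rw [← h6, sum_eq_sum_Ico_succ_bot (by omega), Ico_succ]
    rw [h5] at h3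
    have h6 := abs_phi (-(x + K * h))
    have h7 : |∑ s ∈ Ioc h Q, phi (-(x + K * s))| ≤
        |phi (-(x + K * h)) + ∑ s ∈ Ioc h Q, phi (-(x + K * s))| + |phi (-(x + K * h))| := by
      have h8 := abs_sub (phi (-(x + K * h)) + ∑ s ∈ Ioc h Q, phi (-(x + K * s))) (phi (-(x + K * h)))
      rw [add_sub_cancel_left] at h8
      exact h8
    linarith
  have hC := abs_phi (-x)
  have h1 := abs_add_le (∑ t ∈ range (Q + 1 - h), phi (x + Y + (K - 9) * h + (K - 9) * t) +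
      ∑ s ∈ Ioc h Q, phi (-(x + K * s))) (phi (-x))
  have h2 := abs_add_le (∑ t ∈ range (Q + 1 - h), phi (x + Y + (K - 9) * h + (K - 9) * t))
      (∑ s ∈ Ioc h Q, phi (-(x + K * s)))
  linarith

end Pool.Agent.TH79.NW
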